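import Mathlib

set_option autoImplicit false

open Filter Topology MeasureTheory PiNat

namespace Pool.Agent.H.MP_9e8ffd_lc

abbrev Tr := List ℕ → Bool

def IF : Set Tr := {T | ∃ b : ℕ → ℕ, ∀ n, T (res b (n + 1)) = true}

lemma tendsto_of_res {α : Type} [TopologicalSpace α] (x : ℕ → ℕ → α) (y : ℕ → α)
    (h : ∀ n, res (x n) (n + 1) = res y (n + 1)) : Tendsto x atTop (𝓝 y) := by
  rw [tendsto_pi_nhds]
  intro m
  apply tendsto_const_nhds.congr'
  filter_upwards [eventually_ge_atTop m] with n hn
  exact (res_eq_res.1 (h n) (by omega)).symm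

def tr (c x : ℕ → Bool) : Tr := fun s => c (Encodable.encode (res x s.length, s))

lemma univ (D : Set (ℕ → Bool)) (hD : AnalyticSet D) : ∃ c, ∀ x, x ∈ D ↔ tr c x ∈ IF := by
  classical
  rw [AnalyticSet] at hD
  rcases hD with rfl | ⟨f, hf, rfl⟩
  · refine ⟨fun _ => false, fun x => ⟨fun h => h.elim, ?_⟩⟩
    rintro ⟨b, hb⟩
    simpa [tr] using hb 0
  · refine ⟨fun k => decide (∃ (b : ℕ → ℕ) (n : ℕ),
      k = Encodable.encode (res (f b) n, res b n)), fun x => ⟨?_, ?_⟩⟩
    · rintro ⟨b, rfl⟩
      refine ⟨b, fun n => ?_⟩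
      simp only [tr, res_length, decide_eq_true_eq]
      exact ⟨b, n + 1, rfl⟩
    · rintro ⟨b, hb⟩
      simp only [tr, res_length, decide_eq_true_eq] at hb
      choose b' m hm using hb
      have h1 : ∀ n, res x (n + 1) = res (f (b' n)) (m n) ∧ res b (n + 1) = res (b' n) (m n) :=
        fun n => Prod.mk.inj (Encodable.encode_injective (hm n))
      have h2 : ∀ n, m n = n + 1 := fun n => by
        have := congrArg List.length (h1 n).2
        simpa only [res_length] using this.symm
      have h3 : Tendsto b' atTop (𝓝 b) := tendsto_of_res _ _ fun n => by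
        rw [(h1 n).2, h2 n]
      have h4 : Tendsto (fun n => f (b' n)) atTop (𝓝 x) := tendsto_of_res _ _ fun n => by
        rw [(h1 n).1, h2 n]
      exact ⟨b, tendsto_nhds_unique ((hf.tendsto b).comp h3) h4⟩

lemma res_meas (n : ℕ) (u : List Bool) : MeasurableSet {x : ℕ → Bool | res x n = u} := by
  induction n generalizing u with
  | zero =>
    by_cases h : u = []
    · simp [h]
    · have : {x : ℕ → Bool | res x 0 = u} = ∅ := by
        ext x
        simp [Ne.symm h]
      rw [this]
      exact MeasurableSet.empty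
  | succ n ih =>
    rcases u with _ | ⟨a, u⟩
    · simp
    · have : {x : ℕ → Bool | res x (n + 1) = a :: u} = {x | x n = a} ∩ {x | res x n = u} := by
        ext x
        simp
      rw [this]
      exact (measurableSet_eq_fun (measurable_pi_apply n) measurable_const).inter (ih u)

lemma tr_meas : Measurable fun x : ℕ → Bool => tr x x := by
  refine measurable_pi_lambda _ fun s => ?_
  apply measurable_to_bool
  have : (fun x : ℕ → Bool => tr x x s) ⁻¹' {true} = ⋃ u : List Bool,
      {x : ℕ → Bool | res x s.length = u} ∩ {x | x (Encodable.encode (u, s)) = true} := by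
    ext x
    simp [tr]
  rw [this]
  exact MeasurableSet.iUnion fun u => (res_meas _ u).inter
    (measurableSet_eq_fun (measurable_pi_apply _) measurable_const)

theorem IF_not : ¬ MeasurableSet IF := by
  intro h
  have h1 : MeasurableSet ((fun x : ℕ → Bool => tr x x) ⁻¹' IF)ᶜ := (tr_meas h).compl
  have : PolishSpace (ℕ → Bool) := ⟨⟩
  obtain ⟨c, hc⟩ := univ _ h1.analyticSet
  have := hc c
  simp only [Set.mem_compl_iff, Set.mem_preimage] at this
  exact not_iff_self this


end Pool.Agent.H.MP_9e8ffd_lc
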