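import Pool.Agent.H.MP_9e8ffd_lc.A

namespace Pool.Agent.H.MP_9e8ffd_lc

open Filter Topology Finset

def M : ℕ → ℤ
  | 0 => 1
  | j + 1 => M j * (M j ^ 3 + 1)

def m (j : ℕ) : ℤ := M j ^ 3 + 1

theorem M_succ (j : ℕ) : M (j + 1) = M j * m j := rfl

theorem M_ge (j : ℕ) : (j : ℤ) + 1 ≤ M j := by
  induction j with
  | zero => simp [M]
  | succ j ih =>
    have h : 0 < M j ^ 3 := pow_pos (by omega) 3
    rw [M]
    push_cast
    nlinarith

theorem M_pos (j : ℕ) : 0 < M j := by have := M_ge j; omega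

theorem M_le (j : ℕ) : M j < m j := by
  have := M_pos j
  unfold m
  nlinarith [mul_pos this this, mul_nonneg this.le (sq_nonneg (M j - 1))]

theorem m_pos (j : ℕ) : 0 < m j := (M_pos j).trans (M_le j)

theorem M_dvd {i j : ℕ} (h : i ≤ j) : M i ∣ M j := by
  induction h with
  | refl => exact dvd_rfl
  | step _ ih => exact ih.mul_right _

theorem m_dvd {i j : ℕ} (h : i < j) : m i ∣ M j := (Dvd.intro_left _ rfl).trans (M_dvd h)

theorem m_dbl (j : ℕ) : 2 * m j ≤ m (j + 1) := by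
  have h1 := M_pos j
  have h2 := M_le j
  have h3 : m j ≤ M (j + 1) := by rw [M_succ]; nlinarith
  have h4 : m (j + 1) = M (j + 1) ^ 3 + 1 := rfl
  have h5 : 2 ≤ M (j + 1) := by omega
  nlinarith [mul_pos h1 h1, mul_nonneg (sub_nonneg.2 h5) (sq_nonneg (M (j + 1)))]

theorem crt (c : ℕ → ℤ) (J : ℕ) : ∃ N : ℤ, 0 ≤ N ∧ N < M J ∧ (∀ j, j < J → m j ∣ N - c j) ∧
    ∀ i, i ≤ J → (∀ j, j < i → c j = 0) → M i ∣ N := by
  induction J with
  | zero => exact ⟨0, le_rfl, M_pos 0, by simp, fun _ _ _ => dvd_zero _⟩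
  | succ J ih =>
    obtain ⟨N, h1, h2, h3, h4⟩ := ih
    have e : M J ∣ 1 - m J := ⟨-M J ^ 2, by unfold m; ring⟩
    refine ⟨(N + (c J - N) * (1 - m J)) % M (J + 1), Int.emod_nonneg _ (M_pos _).ne',
      Int.emod_lt_of_pos _ (M_pos _), fun j hj => ?_, fun i hi h => ?_⟩
    · rw [Int.emod_def]
      have a1 : m j ∣ M (J + 1) * ((N + (c J - N) * (1 - m J)) / M (J + 1)) :=
        (m_dvd hj).mul_right _
      rw [sub_right_comm]
      refine dvd_sub ?_ a1
      rcases Nat.lt_succ_iff_lt_or_eq.1 hj with h | rfl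
      · rw [add_sub_right_comm]
        exact dvd_add (h3 j h) (((m_dvd h).trans e).mul_left _)
      · exact ⟨N - c j, by ring⟩
    · rcases hi.lt_or_eq with h5 | rfl
      · have h6 : i ≤ J := by omega
        rw [Int.emod_def]
        exact dvd_sub (dvd_add (h4 i h6 h) (((M_dvd h6).trans e).mul_left _))
          ((M_dvd hi).mul_right _)
      · have h6 : N = 0 := Int.eq_zero_of_dvd_of_nonneg_of_lt h1 h2
          (h4 J le_rfl fun j hj => h j (by omega))
        simp [h6, h J (by omega)]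

noncomputable def d (y : ℝ) : ℝ := |y - round y|

theorem d_le (y : ℝ) (z : ℤ) : d y ≤ |y - z| := round_le y z

theorem mult {y : ℝ} {K : ℤ} (hK : 0 < K) (h : ∀ c : ℕ, (c : ℤ) ≤ K → d (c * y) < 1 / 4) :
    d y * K < 1 / 4 := by
  have key : ∀ c : ℕ, (c : ℤ) ≤ K → d y * c < 1 / 4 := by
    have h1 : d y < 1 / 4 := by simpa using h 1 hK
    intro c
    induction c with
    | zero => norm_num
    | succ c ih =>
      intro hc
      have a1 := ih (by push_cast at hc; omega)
      have a2 := h _ hc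
      have a3 : |((c + 1 : ℕ) : ℝ) * y - (((c + 1 : ℕ) : ℤ) * round y : ℤ)| = d y * (c + 1 : ℕ) := by
        rw [Int.cast_mul, Int.cast_natCast, ← mul_sub, abs_mul, abs_of_nonneg (Nat.cast_nonneg _),
          mul_comm]
        rfl
      have a4 : |((round (((c + 1 : ℕ) : ℝ) * y) - ((c + 1 : ℕ) : ℤ) * round y : ℤ) : ℝ)| < 1 := by
        have := abs_sub_le (round (((c + 1 : ℕ) : ℝ) * y) : ℝ) (((c + 1 : ℕ) : ℝ) * y)
          (((c + 1 : ℕ) : ℤ) * round y : ℤ)
        rw [a3] at this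
        rw [Int.cast_sub]
        unfold d at a2
        rw [abs_sub_comm] at a2
        have a6 : d y * ((c + 1 : ℕ) : ℝ) = d y * c + d y := by push_cast; ring
        linarith
      have a5 := sub_eq_zero.1 (Int.abs_lt_one_iff.1 (by exact_mod_cast a4))
      rw [← a3, ← a5]
      exact a2
  simpa [show ((K.toNat : ℕ) : ℝ) = K by exact_mod_cast Int.toNat_of_nonneg hK.le] using
    key K.toNat (by omega)

theorem sum_int {N : ℤ} {c a : ℕ → ℤ} (g : ℕ → ℕ) (S : Finset ℕ)
    (h : ∀ j ∈ S, m (g j) ∣ N - c j) : ∃ Z : ℤ, (N : ℝ) * ∑ j ∈ S, (a j : ℝ) / m (g j) =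
      Z + ∑ j ∈ S, (c j * a j : ℝ) / m (g j) := by
  refine ⟨∑ j ∈ S, (N - c j) / m (g j) * a j, ?_⟩
  rw [mul_sum, Int.cast_sum, ← sum_add_distrib]
  refine sum_congr rfl fun j hj => ?_
  have : (m (g j) : ℝ) ≠ 0 := by exact_mod_cast (m_pos _).ne'
  rw [Int.cast_mul, Int.cast_div (h j hj) this]
  push_cast
  field_simp
  ring

theorem digit {θ : ℝ} {j : ℕ} {K : ℤ} (hK : M j ≤ K) (h1 : d (M j * θ) < 1 / 4)
    (h2 : d (M (j + 1) * θ) * M (j + 1) < 1 / 4) (h3 : d ((1 - m j) * θ) * K < 1 / 4) :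
    ∃ a : ℤ, (M j * θ - round (M j * θ)) / M j =
      a / m j + (M (j + 1) * θ - round (M (j + 1) * θ)) / M (j + 1) ∧ |a| < m j ∧
      (K = m j → a = 0) := by
  unfold d at h1 h2 h3
  have p1 : (1 : ℝ) ≤ M j := by exact_mod_cast M_pos j
  have p2 : (M j : ℝ) ≤ K := by exact_mod_cast hK
  have p3 : (m j : ℝ) = M j ^ 3 + 1 := by simp [m]
  have p4 : (M (j + 1) : ℝ) = M j * m j := by simp [M_succ]
  generalize round (M j * θ) = r at *
  generalize round (M (j + 1) * θ) = r' at *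
  generalize round ((1 - m j) * θ) = z at *
  obtain ⟨x, hx⟩ : ∃ x, x = M j * θ - r := ⟨_, rfl⟩
  obtain ⟨y, hy⟩ : ∃ y, y = M (j + 1) * θ - r' := ⟨_, rfl⟩
  obtain ⟨w, hw⟩ : ∃ w, w = (1 - m j) * θ - z := ⟨_, rfl⟩
  rw [← hx] at h1 ⊢
  rw [← hy] at h2 ⊢
  rw [← hw] at h3
  let a : ℤ := -M j ^ 2 * r' - z * m j
  have ea : (a : ℝ) = m j * w + M j ^ 2 * y := by
    simp only [a]
    push_cast
    rw [hw, hy, p4, p3]
    ring
  have q1 : (1 : ℝ) ≤ M j ^ 2 := one_le_pow₀ p1
  have q2 : (M j : ℝ) ^ 2 ≤ M j ^ 3 := pow_le_pow_right₀ p1 (by norm_num)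
  have q3 : (0 : ℝ) < m j := by linarith
  have ay := abs_nonneg y
  have aw := abs_nonneg w
  have b1 : |(a : ℝ)| ≤ m j * |w| + M j ^ 2 * |y| := by
    rw [ea]
    refine (abs_add_le _ _).trans (le_of_eq ?_)
    rw [abs_mul, abs_mul, abs_of_pos q3, abs_of_nonneg (by positivity : (0 : ℝ) ≤ M j ^ 2)]
  have b2 : |y| * m j < 1 / 4 := by
    rw [p4] at h2
    nlinarith [mul_nonneg ay q3.le]
  have b3 : |w| * M j < 1 / 4 := by nlinarith
  have b4 : M j ^ 2 * |y| < 1 / 4 := by nlinarith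
  have e1 : M j * a - (r' - m j * r) = 0 := by
    refine Int.eq_zero_of_abs_lt_dvd (m := m j) ⟨r - r' - z * M j, ?_⟩ ?_
    · simp only [a, m]
      ring
    · have e2 : ((M j * a - (r' - m j * r) : ℤ) : ℝ) = M j * a - m j * x + y := by
        push_cast
        rw [hx, hy, p4]
        ring
      have e3 : |((M j * a - (r' - m j * r) : ℤ) : ℝ)| ≤ M j * |(a : ℝ)| + m j * |x| + |y| := by
        rw [e2]
        refine (abs_add_le _ _).trans (add_le_add_left ((abs_sub _ _).trans (le_of_eq ?_)) _)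
        rw [abs_mul, abs_mul, abs_of_pos q3, abs_of_nonneg (by linarith : (0 : ℝ) ≤ M j)]
      have e4 : M j * |(a : ℝ)| ≤ m j * (|w| * M j) + M j ^ 3 * |y| := by nlinarith
      have e5 : |((M j * a - (r' - m j * r) : ℤ) : ℝ)| < m j := by nlinarith
      exact_mod_cast e5
  refine ⟨a, ?_, ?_, fun hK2 => ?_⟩
  · have e2 : (M j * a - (r' - m j * r) : ℝ) = 0 := by exact_mod_cast e1
    have e3 : (m j : ℝ) * x = M j * a + y := by
      rw [hx, hy, p4]
      linarith
    rw [p4]
    field_simp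
    linarith
  · have : |(a : ℝ)| < m j := by nlinarith
    exact_mod_cast this
  · rw [hK2] at h3
    have : |(a : ℝ)| < 1 := by nlinarith
    exact Int.abs_lt_one_iff.1 (by exact_mod_cast this)

variable (e : List ℕ ≃ ℕ) (s : List ℕ)

noncomputable def sg : List ℕ → ℝ
  | [] => if [] = s then 1 / m (e []) else 0
  | u :: t => if u :: t = s then 1 / m (e (u :: t)) else
      sg t - round (sg t * m (e (u :: t))) / m (e (u :: t))

noncomputable def cc : List ℕ → ℤ
  | [] => if [] = s then 1 else 0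
  | u :: t => if u :: t = s then 1 else -round (sg e s t * m (e (u :: t)))

theorem sg_zero (t : List ℕ) (h : ¬ s <:+ t) : sg e s t = 0 ∧ cc e s t = 0 := by
  induction t with
  | nil =>
    have : [] ≠ s := fun h' => h (h' ▸ List.suffix_rfl)
    simp [sg, cc, this]
  | cons u t ih =>
    have h1 : u :: t ≠ s := fun h' => h (h' ▸ List.suffix_rfl)
    have h2 := (ih fun h' => h (h'.trans (List.suffix_cons u t))).1
    simp [sg, cc, h1, h2]

theorem cc_self : cc e s s = 1 := by cases s <;> simp [cc]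

theorem sg_abs (t : List ℕ) : |sg e s t| ≤ 1 / m (e t) := by
  have p : (0 : ℝ) < m (e t) := by exact_mod_cast m_pos _
  cases t with
  | nil =>
    simp only [sg]
    split_ifs
    · rw [abs_of_pos (by positivity)]
    · rw [abs_zero]
      positivity
  | cons u t =>
    simp only [sg]
    split_ifs
    · rw [abs_of_pos (by positivity)]
    · have := abs_sub_round (sg e s t * m (e (u :: t)))
      rw [show sg e s t - round (sg e s t * m (e (u :: t))) / m (e (u :: t)) =
        (sg e s t * m (e (u :: t)) - round (sg e s t * m (e (u :: t)))) / m (e (u :: t)) by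
          field_simp, abs_div, abs_of_pos p]
      exact div_le_div_of_nonneg_right (by linarith) p.le

theorem sg_sum (b : ℕ → ℕ) (n : ℕ) : ∑ k ∈ range (n + 1),
    (cc e s (PiNat.res b k) : ℝ) / m (e (PiNat.res b k)) = sg e s (PiNat.res b n) := by
  induction n with
  | zero =>
    simp only [zero_add, range_one, sum_singleton, PiNat.res_zero, sg, cc]
    split_ifs <;> simp
  | succ n ih =>
    rw [sum_range_succ, ih, PiNat.res_succ]
    simp only [sg, cc]
    split_ifs with h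
    · rw [(sg_zero e s _ fun h' => ?_).1]
      · simp
      · have := h'.length_le
        simp [← h] at this
    · push_cast
      ring

end Pool.Agent.H.MP_9e8ffd_lc
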