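import Pool.Agent.H.MP_9e8ffd_lc.B

namespace Pool.Agent.H.MP_9e8ffd_lc

open Filter Topology Finset

def good (T : Tr) : List ℕ → Bool
  | [] => true
  | u :: s => T (u :: s) && good T s

theorem good_suf (T : Tr) {s t : List ℕ} (h : s <:+ t) (ht : good T t = true) :
    good T s = true := by
  induction t with
  | nil =>
    rw [List.suffix_nil.1 h]
    rfl
  | cons u t ih =>
    rcases List.suffix_cons_iff.1 h with rfl | h
    · exact ht
    · exact ih h (Bool.and_eq_true_iff.1 ht).2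

theorem good_meas (s : List ℕ) : Measurable fun T : Tr => good T s := by
  induction s with
  | nil => exact measurable_const
  | cons u s ih =>
    exact (measurable_of_countable fun p : Bool × Bool => p.1 && p.2).comp
      ((measurable_pi_apply (u :: s)).prodMk ih)

variable (e : List ℕ ≃ ℕ)

noncomputable def NN (s J : ℕ) : ℤ := (crt (fun j => cc e (e.symm s) (e.symm j)) J).choose

def K (g : Bool) (J : ℕ) : ℤ := if g then M J else m J

theorem K_ge (g : Bool) (J : ℕ) : M J ≤ K g J ∧ K g J ≤ m J := by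
  have := (M_le J).le
  cases g <;> simp [K, this]

noncomputable def val (g : Bool) (J r : ℕ) : ℤ :=
  if r % 3 = 0 then if ((r / 3 : ℕ) : ℤ) ≤ M J then (r / 3 : ℕ) * M J else 0
  else if r % 3 = 1 then if ((r / 3 : ℕ) : ℤ) ≤ K g J then (r / 3 : ℕ) * (1 - m J) else 0
  else if r / 3 < J then NN e (r / 3) J else 0

noncomputable def sq (T : Tr) (k : ℕ) : ℤ :=
  val e (good T (e.symm k.unpair.1)) k.unpair.1 k.unpair.2

theorem sq_meas : Measurable (sq e) := measurable_pi_lambda _ fun k =>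
  (measurable_of_countable fun g : Bool => val e g k.unpair.1 k.unpair.2).comp (good_meas _)

def Lev (θ : ℝ) (g : Bool) (J : ℕ) (ε : ℝ) : Prop :=
  (∀ c : ℕ, (c : ℤ) ≤ M J → d (c * (M J * θ)) < ε) ∧
    (∀ c : ℕ, (c : ℤ) ≤ K g J → d (c * ((1 - m J) * θ)) < ε) ∧ ∀ s, s < J → d (NN e s J * θ) < ε

theorem d_zero : d 0 = 0 := by simp [d]

theorem val_iff {θ ε : ℝ} (hε : 0 < ε) (g : Bool) (J : ℕ) :
    (∀ r, d (val e g J r * θ) < ε) ↔ Lev e θ g J ε := by
  constructor
  · intro h
    refine ⟨fun c hc => ?_, fun c hc => ?_, fun s hs => ?_⟩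
    · have := h (3 * c)
      rw [val, if_pos (by omega), show 3 * c / 3 = c by omega, if_pos hc] at this
      simpa [mul_assoc] using this
    · have := h (3 * c + 1)
      rw [val, if_neg (by omega), if_pos (by omega), show (3 * c + 1) / 3 = c by omega,
        if_pos hc] at this
      simpa [mul_assoc] using this
    · have := h (3 * s + 2)
      rwa [val, if_neg (by omega), if_neg (by omega), show (3 * s + 2) / 3 = s by omega,
        if_pos hs] at this
  · rintro ⟨h1, h2, h3⟩ r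
    have h0 : d (((0 : ℤ) : ℝ) * θ) < ε := by simpa [d_zero] using hε
    unfold val
    split_ifs with a b c b b
    · have := h1 _ b
      rwa [Int.cast_mul, Int.cast_natCast, mul_assoc]
    · exact h0
    · have := h2 _ b
      rwa [Int.cast_mul, Int.cast_natCast, mul_assoc, Int.cast_sub, Int.cast_one]
    · exact h0
    · exact h3 _ b
    · exact h0

theorem val_zero (g : Bool) {J r : ℕ} (h : 3 * ((m J).toNat + 1) ≤ r) : val e g J r = 0 := by
  have h1 := K_ge g J
  have h2 := M_ge J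
  have h3 := M_le J
  unfold val
  split_ifs <;> first | rfl | omega

theorem tend_iff (T : Tr) (θ : ℝ) : Tendsto (fun k => d (sq e T k * θ)) atTop (𝓝 0) ↔
    ∀ ε > 0, ∃ J0, ∀ J ≥ J0, Lev e θ (good T (e.symm J)) J ε := by
  have hd : ∀ y, dist (d y) 0 = d y := fun y => by simp [d]
  rw [Metric.tendsto_nhds]
  simp only [hd]
  refine forall₂_congr fun ε hε => ⟨fun h => ?_, fun ⟨J0, h⟩ => ?_⟩
  · obtain ⟨k, hk⟩ := eventually_atTop.1 h
    refine ⟨k, fun J hJ => (val_iff e hε _ _).1 fun r => ?_⟩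
    simpa [sq] using hk (J.pair r) (hJ.trans (Nat.left_le_pair J r))
  · rw [← Nat.cofinite_eq_atTop, eventually_cofinite]
    refine ((Set.finite_lt_nat J0).biUnion fun J _ =>
      (Set.finite_lt_nat (3 * ((m J).toNat + 1))).image J.pair).subset fun k hk => ?_
    simp only [Set.mem_iUnion]
    refine ⟨k.unpair.1, ?_, k.unpair.2, ?_, k.pair_unpair⟩
    · by_contra h1
      exact hk ((val_iff e hε _ _).2 (h _ (not_lt.1 h1)) _)
    · by_contra h1
      apply hk
      rw [sq, val_zero e _ (not_lt.1 h1)]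
      simpa [d_zero] using hε

variable {e} (he : ∀ u t, e t < e (u :: t))
include he

theorem e_mono {s t : List ℕ} (h : s <:+ t) : e s ≤ e t := by
  induction t with
  | nil => rw [List.suffix_nil.1 h]
  | cons u t ih =>
    rcases List.suffix_cons_iff.1 h with rfl | h
    · rfl
    · exact (ih h).trans (he u t).le

theorem wf {T : Tr} {θ : ℝ} (hθ : Irrational θ)
    (h : ∀ ε > 0, ∃ J0, ∀ J ≥ J0, Lev e θ (good T (e.symm J)) J ε) : T ∈ IF := by
  obtain ⟨j0, h0⟩ := h (1 / 4) (by norm_num)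
  obtain ⟨x, hx⟩ : ∃ x : ℕ → ℝ, ∀ J, x J = (M J * θ - round (M J * θ)) / M J := ⟨_, fun _ => rfl⟩
  have p1 : ∀ J, (1 : ℝ) ≤ M J := fun J => by exact_mod_cast M_pos J
  have x1 : ∀ J, |x J| * M J = d (M J * θ) := fun J => by
    have := p1 J
    rw [hx, abs_div, abs_of_pos (by linarith : (0 : ℝ) < M J), div_mul_cancel₀ _ (by linarith)]
    rfl
  have x2 : ∀ {ε g J}, Lev e θ g J ε → d (M J * θ) < ε := fun h => by
    simpa using h.1 1 (M_pos _)
  have dg : ∀ j, ∃ a : ℤ, j0 ≤ j → x j = a / m j + x (j + 1) ∧ |a| < m j ∧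
      (K (good T (e.symm j)) j = m j → a = 0) := fun j => by
    by_cases hj : j0 ≤ j
    · obtain ⟨a, ha⟩ := digit (K_ge (good T (e.symm j)) j).1 (x2 (h0 j hj))
        (mult (M_pos _) (h0 (j + 1) (by omega)).1)
        (mult ((M_pos j).trans_le (K_ge _ j).1) (h0 j hj).2.1)
      exact ⟨a, fun _ => by rw [hx, hx]; exact ha⟩
    · exact ⟨0, fun h => absurd h hj⟩
  choose a ha using dg
  have tl : ∀ J, j0 ≤ J → x j0 = ∑ j ∈ Ico j0 J, (a j : ℝ) / m j + x J := fun J hJ => by
    induction J, hJ using Nat.le_induction with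
    | base => simp
    | succ J hJ ih => rw [sum_Ico_succ_top hJ, add_assoc, ← (ha J hJ).1, ← ih]
  have t0 : θ = round (M j0 * θ) / M j0 + x j0 := by
    have := p1 j0
    rw [hx]
    field_simp
    ring
  have st : ∀ s, j0 ≤ e s → a (e s) ≠ 0 → ∃ t, s <:+ t ∧ s ≠ t ∧ a (e t) ≠ 0 := fun s hs h1 => by
    by_contra h2
    push Not at h2
    have pm : (0 : ℝ) < m (e s) := by exact_mod_cast m_pos _
    obtain ⟨J0, hJ⟩ := h (1 / (2 * m (e s))) (by positivity)
    obtain ⟨J, J1, J2⟩ : ∃ J, J0 ≤ J ∧ e s < J := ⟨J0 + e s + 1, by omega, by omega⟩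
    have L := hJ J J1
    have L1 := x2 L
    have L2 := L.2.2 _ J2
    obtain ⟨n1, n2, n3, n4⟩ := (crt (fun j => cc e (e.symm (e s)) (e.symm j)) J).choose_spec
    change 0 ≤ NN e (e s) J at n1
    change NN e (e s) J < _ at n2
    change ∀ j, j < J → m j ∣ NN e (e s) J - _ at n3
    change ∀ i, i ≤ J → _ → M i ∣ NN e (e s) J at n4
    generalize NN e (e s) J = N at *
    simp only [Equiv.symm_apply_apply] at n3 n4
    obtain ⟨k, hk⟩ := n4 j0 (by omega) fun j hj => (sg_zero e s _ fun h => by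
      have := e_mono he h
      rw [Equiv.apply_symm_apply] at this
      omega).2
    obtain ⟨Z, hZ⟩ := sum_int (N := N) (c := fun j => cc e s (e.symm j)) (a := a) (fun j => j)
      (Ico j0 J) fun j hj => n3 j (mem_Ico.1 hj).2
    rw [sum_eq_single_of_mem (f := fun j => (cc e s (e.symm j) * a j : ℝ) / m j) (e s)
      (mem_Ico.2 ⟨hs, J2⟩) fun j _ hj => by
      by_cases h3 : s <:+ e.symm j
      · have := h2 _ h3 fun h4 => hj (by rw [h4, Equiv.apply_symm_apply])
        rw [Equiv.apply_symm_apply] at this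
        simp [this]
      · simp [(sg_zero e s _ h3).2], Equiv.symm_apply_apply, cc_self] at hZ
    have q1 : (N : ℝ) * θ = k * round (M j0 * θ) + Z + a (e s) / m (e s) + N * x J := by
      have := p1 j0
      have q : (N : ℝ) * (round (M j0 * θ) / M j0) = k * round (M j0 * θ) := by
        rw [hk]
        push_cast
        field_simp
      rw [← q, add_assoc, add_assoc, ← add_assoc (Z : ℝ)]
      conv_lhs => rw [t0, tl J (by omega), mul_add, mul_add, hZ]
      simp
    have q2 : |(N : ℝ) * x J| ≤ d (M J * θ) := by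
      rw [← x1, abs_mul, mul_comm, abs_of_nonneg (by exact_mod_cast n1 : (0 : ℝ) ≤ N)]
      exact mul_le_mul_of_nonneg_left (by exact_mod_cast n2.le) (abs_nonneg _)
    obtain ⟨z, hz⟩ : ∃ z : ℤ, z = round (N * θ) - k * round (M j0 * θ) - Z := ⟨_, rfl⟩
    have q3 : ((a (e s) - m (e s) * z : ℤ) : ℝ) =
        m (e s) * ((N * θ - round (N * θ)) - N * x J) := by
      rw [hz]
      push_cast
      generalize (round (N * θ) : ℝ) = w
      rw [q1]
      field_simp
      ring
    have q4 : |((a (e s) - m (e s) * z : ℤ) : ℝ)| < 1 := by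
      rw [q3, abs_mul, abs_of_pos pm, ← lt_div_iff₀' pm]
      refine (abs_sub _ _).trans_lt ?_
      unfold d at L2
      have : (1 : ℝ) / m (e s) = 1 / (2 * m (e s)) + 1 / (2 * m (e s)) := by
        field_simp
        ring
      linarith
    exact h1 (Int.eq_zero_of_abs_lt_dvd
      ⟨z, sub_eq_zero.1 (Int.abs_lt_one_iff.1 (by exact_mod_cast q4))⟩ (ha _ hs).2.1)
  let Q : List ℕ → Prop := fun s => ∃ t, s <:+ t ∧ j0 ≤ e t ∧ a (e t) ≠ 0
  have Q0 : Q [] := by
    by_contra h1
    have h2 : ∀ j, j0 ≤ j → a j = 0 := fun j hj => by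
      by_contra h3
      exact h1 ⟨e.symm j, List.nil_suffix, by simpa using hj, by simpa using h3⟩
    have h3 : |x j0| ≤ 0 := le_of_forall_pos_le_add fun ε hε => by
      obtain ⟨J0, hJ⟩ := h ε hε
      have a1 := x2 (hJ (max J0 j0) (le_max_left _ _))
      rw [tl _ (le_max_right J0 j0), sum_eq_zero fun j hj => by simp [h2 j (mem_Ico.1 hj).1]]
      rw [← x1] at a1
      have := p1 (max J0 j0)
      have := abs_nonneg (x (max J0 j0))
      rw [zero_add]
      nlinarith
    rw [abs_nonpos_iff.1 h3, add_zero] at t0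
    exact (irrational_iff_ne_rational θ).1 hθ _ _ (M_pos j0).ne' t0
  have Q1 : ∀ s, ∃ u, Q s → Q (u :: s) := fun s => by
    by_cases hs : Q s
    · obtain ⟨t, t1, t2, t3⟩ := hs
      obtain ⟨t', ⟨p, rfl⟩, t5, t6⟩ := st t t2 t3
      obtain ⟨q, rfl⟩ := t1
      rcases (p ++ q).eq_nil_or_concat' with h1 | ⟨w, u, h1⟩
      · exact absurd (by simp [(List.append_eq_nil_iff.1 h1).1]) t5
      · exact ⟨u, fun _ => ⟨_, ⟨w, by rw [← List.append_assoc, h1]; simp⟩,
          t2.trans (e_mono he ⟨p, rfl⟩), t6⟩⟩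
    · exact ⟨0, fun h => absurd h hs⟩
  choose f hf using Q1
  obtain ⟨l, l0, ls⟩ : ∃ l : ℕ → List ℕ, l 0 = [] ∧ ∀ n, l (n + 1) = f (l n) :: l n :=
    ⟨fun n => Nat.rec [] (fun _ s => f s :: s) n, rfl, fun _ => rfl⟩
  have l1 : ∀ n, PiNat.res (fun n => f (l n)) n = l n ∧ Q (l n) := fun n => by
    induction n with
    | zero => exact ⟨l0.symm, l0 ▸ Q0⟩
    | succ n ih => exact ⟨by rw [PiNat.res_succ, ih.1, ls], ls n ▸ hf _ ih.2⟩
  refine ⟨fun n => f (l n), fun n => ?_⟩
  obtain ⟨l2, t, t1, t2, t3⟩ := l1 (n + 1)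
  have : good T t = true := by
    by_contra h1
    exact t3 ((ha _ t2).2.2 (by simp [K, h1]))
  have := good_suf T t1 this
  rw [l2, ls]
  rw [ls] at this
  exact (Bool.and_eq_true_iff.1 this).1

end Pool.Agent.H.MP_9e8ffd_lc
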