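import Pool.Agent.H.MP_9e8ffd_lc.C

namespace Pool.Agent.H.MP_9e8ffd_lc

open Filter Topology Finset

theorem m_mono : Monotone m := monotone_nat_of_le_succ fun j => by
  have := m_dbl j
  have := m_pos j
  omega

theorem tail {g : ℕ → ℕ} (hg : StrictMono g) : ∃ θ : ℝ, ∀ (J : ℕ) (N : ℤ) (c : ℕ → ℤ),
    (∀ k, g k < J → m (g k) ∣ N - c k) → ∃ (n : ℕ) (Z : ℤ) (τ : ℝ), (∀ k, k < n ↔ g k < J) ∧
      0 < τ ∧ τ * m J ≤ 2 ∧ N * θ = Z + ∑ k ∈ range n, (c k : ℝ) / m (g k) + N * τ := by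
  have pm : ∀ j, (0 : ℝ) < m j := fun j => by exact_mod_cast m_pos j
  let f : ℕ → ℝ := fun k => 1 / m (g k)
  have f0 : ∀ k, 0 < f k := fun k => one_div_pos.2 (pm _)
  have f1 : ∀ n k, f (k + n) ≤ f n * (1 / 2) ^ k := fun n k => by
    induction k with
    | zero => simp
    | succ k ih =>
      have a1 : (2 : ℝ) * m (g (k + n)) ≤ m (g (k + 1 + n)) := by
        exact_mod_cast (m_dbl _).trans (m_mono (hg (by omega)))
      have a2 : f (k + 1 + n) ≤ f (k + n) * (1 / 2) := by
        simp only [f]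
        rw [div_mul_div_comm, one_mul]
        exact one_div_le_one_div_of_le (by have := pm (g (k + n)); positivity) (by linarith)
      rw [pow_succ, ← mul_assoc]
      linarith
  have f2 : ∀ n, Summable fun k => f (k + n) := fun n =>
    (summable_geometric_two.mul_left (f n)).of_nonneg_of_le (fun _ => (f0 _).le) (f1 n)
  refine ⟨∑' k, f k, fun J N c h => ?_⟩
  have ex : ∃ n, J ≤ g n := ⟨J, hg.le_apply⟩
  have n1 : ∀ k, k < Nat.find ex ↔ g k < J := fun k => by
    rw [Nat.lt_find_iff]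
    exact ⟨fun h => not_le.1 (h k le_rfl), fun h i hi => not_le.2 ((hg.monotone hi).trans_lt h)⟩
  have n2 := Nat.find_spec ex
  generalize Nat.find ex = n at *
  obtain ⟨Z, hZ⟩ := sum_int (N := N) (c := c) (a := fun _ => 1) g (range n) fun k hk =>
    h k ((n1 k).1 (mem_range.1 hk))
  refine ⟨n, Z, ∑' k, f (k + n), n1, (f2 n).tsum_pos (fun _ => (f0 _).le) 0 (f0 _), ?_, ?_⟩
  · have a1 := (f2 n).tsum_le_tsum (f1 n) (summable_geometric_two.mul_left (f n))
    rw [tsum_mul_left, tsum_geometric_two] at a1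
    have a2 : f n * m J ≤ 1 := by
      simp only [f]
      rw [one_div, inv_mul_le_iff₀ (pm _), mul_one]
      exact_mod_cast m_mono n2
    nlinarith [pm J]
  · rw [← Summable.sum_add_tsum_nat_add n (by simpa using f2 0), mul_add]
    simpa [f] using hZ

theorem ifd {e : List ℕ ≃ ℕ} (he : ∀ u t, e t < e (u :: t)) {T : Tr} (h : T ∈ IF) :
    ∃ θ : ℝ, Irrational θ ∧ ∀ ε > 0, ∃ J0, ∀ J ≥ J0, Lev e θ (good T (e.symm J)) J ε := by
  obtain ⟨b, hb⟩ := h
  obtain ⟨g, hg⟩ : ∃ g : ℕ → ℕ, ∀ n, g n = e (PiNat.res b n) := ⟨_, fun _ => rfl⟩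
  have g1 : StrictMono g := strictMono_nat_of_lt_succ fun n => by
    rw [hg, hg, PiNat.res_succ]
    exact he _ _
  have g2 : ∀ n, good T (PiNat.res b n) = true := fun n => by
    induction n with
    | zero => rfl
    | succ n ih =>
      have := hb n
      rw [PiNat.res_succ] at this ⊢
      exact Bool.and_eq_true_iff.2 ⟨this, ih⟩
  obtain ⟨θ, hθ⟩ := tail g1
  have p1 : ∀ J, (1 : ℝ) ≤ M J := fun J => by exact_mod_cast M_pos J
  have p2 : ∀ J, (m J : ℝ) = M J ^ 3 + 1 := fun J => by simp [m]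
  have p3 : ∀ J, (M J : ℝ) * M J ≤ m J := fun J => by
    rw [p2]
    nlinarith [p1 J, mul_nonneg (sub_nonneg.2 (p1 J)) (mul_self_nonneg (M J : ℝ))]
  have p4 : ∀ J, (M J : ℝ) ≤ m J := fun J => by exact_mod_cast (M_le J).le
  refine ⟨θ, (irrational_iff_ne_rational θ).2 fun p q hq h => ?_, fun ε hε => ?_⟩
  · obtain ⟨J, hJ⟩ : ∃ J, 2 * |q| < M J := ⟨(2 * |q|).toNat, by
      have := M_ge (2 * |q|).toNat
      omega⟩
    obtain ⟨n, Z, τ, -, t1, t2, t3⟩ := hθ J (q * M J) 0 fun k hk => by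
      simpa using (m_dvd hk).mul_left q
    have hq' : (q : ℝ) ≠ 0 := by exact_mod_cast hq
    have a1 : ((p * M J - Z : ℤ) : ℝ) = q * (M J * τ) := by
      rw [h] at t3
      push_cast at t3 ⊢
      simp only [Pi.zero_apply, Int.cast_zero, zero_div, sum_const_zero, add_zero] at t3
      rw [← mul_assoc, eq_sub_of_add_eq' t3.symm]
      field_simp
    have a2 : 0 < M J * τ := mul_pos (by linarith [p1 J]) t1
    have a3 : |((p * M J - Z : ℤ) : ℝ)| < 1 := by
      have : 2 * |(q : ℝ)| < M J := by exact_mod_cast hJ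
      rw [a1, abs_mul, abs_of_pos a2]
      nlinarith [p3 J, mul_lt_mul_of_pos_right this a2]
    have a4 : p * M J - Z = 0 := Int.abs_lt_one_iff.1 (by exact_mod_cast a3)
    rw [a4] at a1
    exact mul_ne_zero hq' a2.ne' (by simpa using a1.symm)
  obtain ⟨n0, hn⟩ := exists_nat_gt (3 / ε)
  have e1 : ∀ j (y : ℝ), n0 ≤ j → y * M j ≤ 1 → 3 * y < ε := fun j y hj hy => by
    have a1 : (n0 : ℝ) + 1 ≤ M j := by
      have := M_ge j
      exact_mod_cast (by omega : (n0 : ℤ) + 1 ≤ M j)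
    rw [div_lt_iff₀ hε] at hn
    by_contra h
    nlinarith [p1 j, mul_le_mul_of_nonneg_right (not_lt.1 h) (zero_le_one.trans (p1 j))]
  refine ⟨g n0 + 1, fun J hJ => ?_⟩
  have J1 : n0 ≤ J := by have := g1.le_apply (x := n0); omega
  have q1 := p1 J
  refine ⟨fun c hc => ?_, fun c hc => ?_, fun s hs => ?_⟩
  · obtain ⟨n, Z, τ, -, t1, t2, t3⟩ := hθ J (c * M J) 0 fun k hk => by
      simpa using (m_dvd hk).mul_left (c : ℤ)
    push_cast at t3
    simp only [Pi.zero_apply, Int.cast_zero, zero_div, sum_const_zero, add_zero] at t3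
    have a1 : (c : ℝ) ≤ M J := by exact_mod_cast hc
    have a2 : 0 ≤ c * M J * τ := by positivity
    have a3 := e1 J (M J * M J * τ / 2) J1 (by rw [p2] at t2; nlinarith)
    refine (d_le _ Z).trans_lt ?_
    rw [← mul_assoc, t3, add_sub_cancel_left, abs_of_nonneg a2]
    nlinarith [mul_le_mul_of_nonneg_right a1 (by positivity : 0 ≤ M J * τ)]
  · have e2 : M J ∣ 1 - m J := ⟨-M J ^ 2, by unfold m; ring⟩
    obtain ⟨n, Z, τ, t0, t1, t2, t3⟩ := hθ (J + 1) (c * (1 - m J))
      (fun k => if g k = J then c else 0) fun k hk => by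
        split_ifs with h
        · exact ⟨-c, by rw [h]; ring⟩
        · simpa using ((m_dvd (by omega : g k < J)).trans e2).mul_left (c : ℤ)
    obtain ⟨S, hS⟩ : ∃ S : ℝ, S = ∑ k ∈ range n, ((if g k = J then c else 0 : ℤ) : ℝ) / m (g k) :=
      ⟨_, rfl⟩
    rw [← hS] at t3
    have a1 : |S| * M J ≤ 1 := by
      by_cases h : ∃ k, g k = J
      · obtain ⟨k, hk⟩ := h
        rw [K, ← hk, hg, Equiv.symm_apply_apply, g2, if_pos rfl, ← hg, hk] at hc
        have a2 : (c : ℝ) ≤ M J := by exact_mod_cast hc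
        rw [hS, sum_eq_single_of_mem k (mem_range.2 ((t0 k).2 (by omega))) fun j _ hj => by
          rw [if_neg fun h => hj (g1.injective (h.trans hk.symm))]
          simp, if_pos hk, hk, abs_of_nonneg (div_nonneg (by simp) (by linarith [p4 J])),
          div_mul_eq_mul_div, div_le_one (by linarith [p4 J])]
        push_cast
        nlinarith [p3 J]
      · rw [hS, sum_eq_zero fun k _ => by simp [show g k ≠ J from fun h' => h ⟨k, h'⟩]]
        simp
    have a2 : (c : ℝ) ≤ m J := by exact_mod_cast hc.trans (K_ge _ J).2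
    have a3 : (m J : ℝ) * m J * M J ≤ m (J + 1) := by
      rw [p2 (J + 1), M_succ]
      push_cast
      have a4 : (1 : ℝ) ≤ m J := q1.trans (p4 J)
      have a5 : (1 : ℝ) ≤ M J * M J * m J := by nlinarith [mul_le_mul q1 q1 zero_le_one (by linarith)]
      nlinarith [mul_le_mul_of_nonneg_left a5 (by positivity : (0 : ℝ) ≤ m J * m J * M J)]
    have a4 : |((c * (1 - m J) : ℤ) : ℝ) * τ| ≤ m J * m J * τ := by
      rw [abs_mul, abs_of_pos t1]
      refine mul_le_mul_of_nonneg_right ?_ t1.le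
      push_cast
      rw [abs_mul, abs_of_nonneg (Nat.cast_nonneg c), abs_of_nonpos (by linarith [p4 J])]
      exact mul_le_mul a2 (by linarith) (by linarith [p4 J]) (by linarith [p4 J])
    have a5 := e1 J ((|S| + m J * m J * τ) / 3) J1 (by nlinarith)
    refine (d_le _ Z).trans_lt ?_
    rw [show (c : ℝ) * ((1 - m J) * θ) = (c * (1 - m J) : ℤ) * θ by push_cast; ring, t3,
      add_assoc, add_sub_cancel_left]
    linarith [abs_add_le S (((c * (1 - m J) : ℤ) : ℝ) * τ)]
  · obtain ⟨n1, n2, n3, -⟩ := (crt (fun j => cc e (e.symm s) (e.symm j)) J).choose_spec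
    change 0 ≤ NN e s J at n1
    change NN e s J < _ at n2
    change ∀ j, j < J → m j ∣ NN e s J - _ at n3
    generalize NN e s J = N at *
    obtain ⟨n, Z, τ, t0, t1, t2, t3⟩ := hθ J N (fun k => cc e (e.symm s) (PiNat.res b k))
      fun k hk => by
        have := n3 _ hk
        rwa [hg k, Equiv.symm_apply_apply, ← hg] at this
    have a1 : n0 < n := (t0 n0).2 hJ
    obtain ⟨n, rfl⟩ : ∃ k, n = k + 1 := ⟨n - 1, by omega⟩
    simp only [hg, sg_sum] at t3
    have a2 := sg_abs e (e.symm s) (PiNat.res b n)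
    rw [← hg, le_div_iff₀ (by linarith [p1 (g n), p4 (g n)])] at a2
    have a3 := e1 (g n) |sg e (e.symm s) (PiNat.res b n)|
      ((by omega : n0 ≤ n).trans g1.le_apply)
      ((mul_le_mul_of_nonneg_left (p4 _) (abs_nonneg _)).trans a2)
    have a4 : (0 : ℝ) ≤ N := by exact_mod_cast n1
    have a5 : (N : ℝ) ≤ M J := by exact_mod_cast n2.le
    have a6 := e1 J (M J * τ / 2) J1 (by nlinarith [p3 J])
    refine (d_le _ Z).trans_lt ?_
    rw [t3, add_assoc, add_sub_cancel_left]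
    refine (abs_add_le _ _).trans_lt ?_
    rw [abs_of_nonneg (mul_nonneg a4 t1.le)]
    nlinarith

open Complex in
theorem link (θ : ℝ) (n : ℕ → ℤ) :
    Tendsto (fun k => exp (2 * Real.pi * I * θ) ^ n k) atTop (𝓝 1) ↔
      Tendsto (fun k => d (n k * θ)) atTop (𝓝 0) := by
  have pp := Real.pi_pos
  have e : ∀ k, exp (2 * Real.pi * I * θ) ^ n k =
      exp (I * (2 * Real.pi * (n k * θ - round (n k * θ)) : ℝ)) := fun k => by
    rw [← exp_int_mul, ← mul_one (exp (I * _)), ← exp_int_mul_two_pi_mul_I (round (n k * θ)),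
      ← exp_add]
    congr 1
    push_cast
    ring
  rw [tendsto_iff_norm_sub_tendsto_zero]
  simp only [e]
  constructor
  · refine squeeze_zero (fun _ => abs_nonneg _) fun k => ?_
    have a1 := abs_sub_round (n k * θ)
    rw [norm_exp_I_mul_ofReal_sub_one, Real.norm_eq_abs, abs_mul, abs_two, d]
    generalize (n k * θ - round (n k * θ) : ℝ) = y at *
    have a2 : |2 * Real.pi * y / 2| = Real.pi * |y| := by
      rw [show 2 * Real.pi * y / 2 = Real.pi * y by ring, abs_mul, abs_of_pos pp]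
    have a3 := Real.mul_abs_le_abs_sin (x := 2 * Real.pi * y / 2) (by rw [a2]; nlinarith)
    rw [a2, ← mul_assoc, div_mul_cancel₀ _ pp.ne'] at a3
    linarith [abs_nonneg y]
  · intro h
    refine squeeze_zero (fun _ => norm_nonneg _) (fun k => Real.norm_exp_I_mul_ofReal_sub_one_le) ?_
    simpa [d, abs_of_pos pp] using h.const_mul (2 * Real.pi)

theorem enum : ∃ e : List ℕ ≃ ℕ, ∀ u t, e t < e (u :: t) :=
  ⟨Denumerable.eqv _, fun u t => by
    simp only [Denumerable.eqv, Equiv.coe_fn_mk, Encodable.encode_list_cons]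
    exact Nat.lt_succ_of_le (Nat.right_le_pair _ _)⟩

end Pool.Agent.H.MP_9e8ffd_lc
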